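import Pool.Agent.X76.Wreath

/-!
# Assembling the colouring of a wreath product from local data
-/

set_option autoImplicit false

namespace Pool.Agent.N690.AL

open Finset SimpleGraph Pool.Agent.X76.Wr

/-- same orbit -/
def R {W : Type} (G' : SimpleGraph W) (x y : W) : Prop := ∃ φ : G' ≃g G', φ x = y

/-- local colouring data at `x` -/
structure Loc {W : Type} (G' : SimpleGraph W) (d D : ℕ) (c' : W → W → ℕ)
    (η : Bool → ℕ → W → W → ℕ) (x : W) : Prop where
  c1 : ∀ y, G'.Adj x y → c' x y = c' y x ∧ c' x y < D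
  c2 : ∀ y y', G'.Adj x y → G'.Adj x y' → y ≠ y' → c' x y ≠ c' x y'
  e1 : ∀ b t y, t < d → R G' x y → x ≠ y → η b t x y = η (!b) t y x ∧ η b t x y < D
  e2 : ∀ b t y y', t < d → R G' x y → R G' x y' → x ≠ y → x ≠ y' → y ≠ y' →
    η b t x y ≠ η b t x y'
  e3 : ∀ b b' t t' y y', t < d → t' < d → t ≠ t' → R G' x y → R G' x y' → x ≠ y → x ≠ y' →
    η b t x y ≠ η b' t' x y'
  ce : ∀ b t y w, t < d → R G' x y → x ≠ y → G'.Adj x w → η b t x y ≠ c' x w
  av : ∃ f : ℕ → ℕ, (∀ i < d, ∀ j < d, f i = f j → i = j) ∧ ∀ i < d, f i < D ∧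
    (∀ w, G'.Adj x w → f i ≠ c' x w) ∧
    ∀ b t y, t < d → R G' x y → x ≠ y → f i ≠ η b t x y

theorem assemble {V W : Type} [Fintype V] (G : SimpleGraph V) (G' : SimpleGraph W)
    (d D : ℕ) (hG : EC d G) (c' : W → W → ℕ) (η : Bool → ℕ → W → W → ℕ)
    (h : ∀ x, Loc G' d D c' η x) : EC D (wreath G G') := by
  classical
  obtain ⟨cG, hcG⟩ := hG
  let eV : V → ℕ := fun v => (Fintype.equivFin V v).val
  have heV : Function.Injective eV := fun a b h => (Fintype.equivFin V).injective (Fin.ext h)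
  choose f hf1 hf2 using fun x => (h x).av
  let c : V × W → V × W → ℕ := fun p r =>
    if p.1 = r.1 then c' p.2 r.2 else if p.2 = r.2 then f p.2 (cG p.1 r.1) else
      η (decide (eV p.1 < eV r.1)) (cG p.1 r.1) p.2 r.2
  have hfirst : ∀ p r : V × W, p.1 = r.1 → c p r = c' p.2 r.2 := by
    intro p r h; simp only [c, if_pos h]
  have hsecond : ∀ p r : V × W, G.Adj p.1 r.1 → p.2 = r.2 → c p r = f p.2 (cG p.1 r.1) := by
    intro p r h h'; simp only [c, if_neg (G.ne_of_adj h), if_pos h']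
  have hthird : ∀ p r : V × W, G.Adj p.1 r.1 → p.2 ≠ r.2 →
      c p r = η (decide (eV p.1 < eV r.1)) (cG p.1 r.1) p.2 r.2 := by
    intro p r h h'; simp only [c, if_neg (G.ne_of_adj h), if_neg h']
  refine ⟨c, ?_⟩
  intro p r hpr
  refine ⟨?_, ?_, ?_⟩
  · -- symmetry
    rcases hpr with ⟨h3, h4⟩ | ⟨h3, h4⟩
    · rw [hfirst p r h3, hfirst r p h3.symm, ((h _).c1 _ h4).1]
    · by_cases h5 : p.2 = r.2
      · rw [hsecond p r h3 h5, hsecond r p h3.symm h5.symm, h5, (hcG _ _ h3).1]
      · rw [hthird p r h3 h5, hthird r p h3.symm (Ne.symm h5),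
          ((h p.2).e1 _ _ r.2 (hcG _ _ h3).2.1 h4 h5).1, (hcG _ _ h3).1]
        congr 1
        have h7 : eV p.1 ≠ eV r.1 := fun h => G.ne_of_adj h3 (heV h)
        by_cases h8 : eV p.1 < eV r.1
        · have h9 : ¬ eV r.1 < eV p.1 := by omega
          simp [h8, h9]
        · have h9 : eV r.1 < eV p.1 := by omega
          simp [h8, h9]
  · -- range
    rcases hpr with ⟨h3, h4⟩ | ⟨h3, h4⟩
    · rw [hfirst p r h3]
      exact ((h _).c1 _ h4).2
    · by_cases h5 : p.2 = r.2
      · rw [hsecond p r h3 h5]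
        exact (hf2 _ _ (hcG _ _ h3).2.1).1
      · rw [hthird p r h3 h5]
        exact ((h p.2).e1 _ _ r.2 (hcG _ _ h3).2.1 h4 h5).2
  · -- properness
    intro s hps hrs
    by_cases h3 : p.1 = r.1
    · have h4 : G'.Adj p.2 r.2 := by
        rcases hpr with h | h
        · exact h.2
        · exact absurd h3 (G.ne_of_adj h.1)
      rw [hfirst p r h3]
      by_cases h5 : p.1 = s.1
      · have h6 : G'.Adj p.2 s.2 := by
          rcases hps with h | h
          · exact h.2
          · exact absurd h5 (G.ne_of_adj h.1)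
        rw [hfirst p s h5]
        exact (h p.2).c2 _ _ h4 h6 (fun h => hrs (Prod.ext (h3.symm.trans h5) h))
      · have h6 : G.Adj p.1 s.1 ∧ R G' p.2 s.2 := by
          rcases hps with h | h
          · exact absurd h.1 h5
          · exact h
        by_cases h7 : p.2 = s.2
        · rw [hsecond p s h6.1 h7]
          exact ((hf2 _ _ (hcG _ _ h6.1).2.1).2.1 _ h4).symm
        · rw [hthird p s h6.1 h7]
          exact ((h p.2).ce _ _ _ _ (hcG _ _ h6.1).2.1 h6.2 h7 h4).symm
    · have h4 : G.Adj p.1 r.1 ∧ R G' p.2 r.2 := by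
        rcases hpr with h | h
        · exact absurd h.1 h3
        · exact h
      by_cases h5 : p.1 = s.1
      · have h6 : G'.Adj p.2 s.2 := by
          rcases hps with h | h
          · exact h.2
          · exact absurd h5 (G.ne_of_adj h.1)
        rw [hfirst p s h5]
        by_cases h7 : p.2 = r.2
        · rw [hsecond p r h4.1 h7]
          exact (hf2 _ _ (hcG _ _ h4.1).2.1).2.1 _ h6
        · rw [hthird p r h4.1 h7]
          exact (h p.2).ce _ _ _ _ (hcG _ _ h4.1).2.1 h4.2 h7 h6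
      · have h6 : G.Adj p.1 s.1 ∧ R G' p.2 s.2 := by
          rcases hps with h | h
          · exact absurd h.1 h5
          · exact h
        by_cases h8 : p.2 = r.2
        · rw [hsecond p r h4.1 h8]
          by_cases h9 : p.2 = s.2
          · rw [hsecond p s h6.1 h9]
            intro h10
            have h12 := hf1 _ _ (hcG _ _ h4.1).2.1 _ (hcG _ _ h6.1).2.1 h10
            by_cases h13 : r.1 = s.1
            · exact hrs (Prod.ext h13 (h8.symm.trans h9))
            · exact (hcG _ _ h4.1).2.2 _ h6.1 h13 h12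
          · rw [hthird p s h6.1 h9]
            exact (hf2 _ _ (hcG _ _ h4.1).2.1).2.2 _ _ _ (hcG _ _ h6.1).2.1 h6.2 h9
        · rw [hthird p r h4.1 h8]
          by_cases h9 : p.2 = s.2
          · rw [hsecond p s h6.1 h9]
            exact ((hf2 _ _ (hcG _ _ h6.1).2.1).2.2 _ _ _ (hcG _ _ h4.1).2.1 h4.2 h8).symm
          · rw [hthird p s h6.1 h9]
            by_cases h13 : r.1 = s.1
            · rw [h13]
              exact (h p.2).e2 _ _ _ _ (hcG _ _ h6.1).2.1 h4.2 h6.2 h8 h9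
                (fun h => hrs (Prod.ext h13 h))
            · exact (h p.2).e3 _ _ _ _ _ _ (hcG _ _ h4.1).2.1 (hcG _ _ h6.1).2.1
                ((hcG _ _ h4.1).2.2 _ h6.1 h13) h4.2 h6.2 h8 h9

/-- the class of `x` -/
def Cls {W : Type} (G' : SimpleGraph W) (x : W) : Set W :=
  {w | Relation.ReflTransGen (fun a b => R G' a b ∨ G'.Adj a b) x w}

lemma R.symm {W : Type} {G' : SimpleGraph W} {x y : W} (h : R G' x y) : R G' y x := by
  obtain ⟨φ, rfl⟩ := h
  exact ⟨φ.symm, by simp⟩

lemma R.trans {W : Type} {G' : SimpleGraph W} {x y z : W} (h : R G' x y) (h' : R G' y z) :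
    R G' x z := by
  obtain ⟨φ, rfl⟩ := h
  obtain ⟨ψ, rfl⟩ := h'
  exact ⟨φ.trans ψ, by simp⟩

lemma R.refl {W : Type} {G' : SimpleGraph W} (x : W) : R G' x x := ⟨SimpleGraph.Iso.refl, rfl⟩

lemma Cls_eq {W : Type} {G' : SimpleGraph W} {x y : W} (h : y ∈ Cls G' x) :
    Cls G' x = Cls G' y := by
  have hsym : ∀ a b : W, Relation.ReflTransGen (fun a b => R G' a b ∨ G'.Adj a b) a b →
      Relation.ReflTransGen (fun a b => R G' a b ∨ G'.Adj a b) b a := by
    intro a b h
    induction h with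
    | refl => exact Relation.ReflTransGen.refl
    | tail _ hst ih =>
      refine Relation.ReflTransGen.head ?_ ih
      rcases hst with h | h
      · exact Or.inl h.symm
      · exact Or.inr h.symm
  ext z
  exact ⟨fun hz => (hsym _ _ h).trans hz, fun hz => Relation.ReflTransGen.trans h hz⟩

lemma mem_Cls {W : Type} (G' : SimpleGraph W) (x : W) : x ∈ Cls G' x :=
  Relation.ReflTransGen.refl

theorem glue {V W : Type} [Fintype V] (G : SimpleGraph V) (G' : SimpleGraph W)
    (d D : ℕ) (hG : EC d G)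
    (h : ∀ x0 : W, ∃ (c' : W → W → ℕ) (η : Bool → ℕ → W → W → ℕ),
      ∀ x ∈ Cls G' x0, Loc G' d D c' η x) : EC D (wreath G G') := by
  classical
  have h' : ∀ S : Set W, ∃ (c' : W → W → ℕ) (η : Bool → ℕ → W → W → ℕ),
      ∀ x0, S = Cls G' x0 → ∀ x ∈ S, Loc G' d D c' η x := by
    intro S
    by_cases hS : ∃ x0, S = Cls G' x0
    · obtain ⟨x0, rfl⟩ := hS
      obtain ⟨c', η, h1⟩ := h x0
      exact ⟨c', η, fun _ _ => h1⟩
    · exact ⟨fun _ _ => 0, fun _ _ _ _ => 0, fun x0 h1 => absurd ⟨x0, h1⟩ hS⟩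
  choose C H hCH using h'
  refine assemble G G' d D hG (fun x y => C (Cls G' x) x y)
    (fun b t x y => H (Cls G' x) b t x y) ?_
  intro x
  have hx := hCH (Cls G' x) x rfl x (mem_Cls G' x)
  have hadj : ∀ y, G'.Adj x y → Cls G' y = Cls G' x := fun y hy =>
    (Cls_eq (Relation.ReflTransGen.single (Or.inr hy) : y ∈ Cls G' x)).symm
  have hR : ∀ y, R G' x y → Cls G' y = Cls G' x := fun y hy =>
    (Cls_eq (Relation.ReflTransGen.single (Or.inl hy) : y ∈ Cls G' x)).symm
  refine ⟨?_, hx.c2, ?_, hx.e2, hx.e3, hx.ce, hx.av⟩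
  · intro y hy
    show C (Cls G' x) x y = C (Cls G' y) y x ∧ _
    rw [hadj y hy]
    exact hx.c1 y hy
  · intro b t y ht hy hne
    show H (Cls G' x) b t x y = H (Cls G' y) (!b) t y x ∧ _
    rw [hR y hy]
    exact hx.e1 b t y ht hy hne

end Pool.Agent.N690.AL
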