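import Pool.Agent.N690.AL.Core

/-!
# The chromatic index as an infimum
-/

set_option autoImplicit false

namespace Pool.Agent.N690.AL

open SimpleGraph Pool.Agent.X76.Wr

/-- the numbers of colours -/
def CI {U : Type} (H : SimpleGraph U) : Set ℕ :=
  {k : ℕ | ∃ c : Sym2 U → Fin k, ∀ e ∈ H.edgeSet, ∀ f ∈ H.edgeSet,
    e ≠ f → (∃ v, v ∈ e ∧ v ∈ f) → c e ≠ c f}

lemma EC_of_CI {U : Type} {H : SimpleGraph U} {k : ℕ} (h : k ∈ CI H) : EC k H := by
  obtain ⟨c, hc⟩ := h
  refine ⟨fun x y => (c s(x, y)).val, ?_⟩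
  intro u v huv
  refine ⟨?_, (c s(u, v)).2, ?_⟩
  · show (c s(u, v)).val = (c s(v, u)).val
    rw [Sym2.eq_swap]
  · intro w huw hvw heq
    refine hc s(u, v) huv s(u, w) huw ?_ ⟨u, by simp, by simp⟩ (Fin.ext heq)
    intro h
    exact hvw (Sym2.congr_right.1 h)

lemma CI_of_EC {U : Type} {H : SimpleGraph U} {k : ℕ} (hk : 1 ≤ k) (h : EC k H) : k ∈ CI H := by
  classical
  obtain ⟨c, hc⟩ := h
  have hex : ∀ e : Sym2 U, ∃ a : Fin k, ∀ u v, e = s(u, v) → H.Adj u v → a.val = c u v := by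
    intro e
    by_cases h : ∃ u v, e = s(u, v) ∧ H.Adj u v
    · obtain ⟨u, v, rfl, huv⟩ := h
      refine ⟨⟨c u v, (hc u v huv).2.1⟩, ?_⟩
      intro u' v' h1 h2
      rw [Sym2.eq_iff] at h1
      rcases h1 with ⟨rfl, rfl⟩ | ⟨rfl, rfl⟩
      · rfl
      · exact (hc _ _ huv).1
    · exact ⟨⟨0, hk⟩, fun u v h1 h2 => absurd ⟨u, v, h1, h2⟩ h⟩
  choose a ha using hex
  refine ⟨a, ?_⟩
  rintro e he f hf hef ⟨v, hve, hvf⟩ heq
  obtain ⟨x, rfl⟩ := Sym2.mem_iff_exists.mp hve
  obtain ⟨y, rfl⟩ := Sym2.mem_iff_exists.mp hvf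
  rw [SimpleGraph.mem_edgeSet] at he hf
  have h1 := ha _ v x rfl he
  have h2 := ha _ v y rfl hf
  rw [heq] at h1
  refine (hc v x he).2.2 y hf ?_ (h1.symm.trans h2)
  rintro rfl
  exact hef rfl

lemma le_of_CI {U : Type} [Fintype U] {H : SimpleGraph U} [DecidableRel H.Adj] {k : ℕ}
    (h : k ∈ CI H) : H.maxDegree ≤ k := by
  classical
  obtain ⟨c, hc⟩ := h
  apply SimpleGraph.maxDegree_le_of_forall_degree_le
  intro v
  rw [← SimpleGraph.card_neighborFinset_eq_degree]
  have : (Finset.univ : Finset (Fin k)).card = k := by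
    rw [Finset.card_univ, Fintype.card_fin]
  rw [← this]
  refine Finset.card_le_card_of_injOn (fun w => c s(v, w))
    (fun _ _ => Finset.mem_coe.2 (Finset.mem_univ _)) ?_
  intro w hw w' hw' heq
  rw [Finset.mem_coe, SimpleGraph.mem_neighborFinset] at hw hw'
  by_contra hne
  exact hc s(v, w) hw s(v, w') hw' (fun h => hne (Sym2.congr_right.1 h))
    ⟨v, by simp, by simp⟩ heq

theorem final {V W : Type} [Fintype V] [Fintype W] (G : SimpleGraph V) (G' : SimpleGraph W)
    [DecidableRel G.Adj] [DecidableRel (wreath G G').Adj] (hne : G.edgeSet.Nonempty)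
    (h : sInf (CI G) = G.maxDegree) : sInf (CI (wreath G G')) = (wreath G G').maxDegree := by
  classical
  obtain ⟨e, he⟩ := hne
  have hex : ∃ x y, G.Adj x y := by
    induction e using Sym2.ind with
    | _ x y => exact ⟨x, y, he⟩
  obtain ⟨x, y, hxy⟩ := hex
  have hpos : 1 ≤ G.maxDegree :=
    ((G.degree_pos_iff_exists_adj x).2 ⟨y, hxy⟩).trans_le (G.degree_le_maxDegree x)
  have hGn : (CI G).Nonempty := by
    rw [Set.nonempty_iff_ne_empty]
    intro h0
    rw [h0, Nat.sInf_empty] at h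
    omega
  have hmem : G.maxDegree ∈ CI G := by
    rw [← h]; exact Nat.sInf_mem hGn
  have hEC := wreath_class_one G G' ⟨x, y, hxy⟩ (EC_of_CI hmem)
  rcases isEmpty_or_nonempty W with hW | ⟨⟨w⟩⟩
  · have h1 : IsEmpty (V × W) := inferInstance
    have h2 : (0 : ℕ) ∈ CI (wreath G G') := by
      refine ⟨fun e => ?_, ?_⟩
      · exfalso
        induction e using Sym2.ind with
        | _ a b => exact h1.false a
      · intro e
        exfalso
        induction e using Sym2.ind with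
        | _ a b => exact h1.false a
    have h3 := Nat.sInf_le h2
    have h4 := le_of_CI h2
    omega
  · have hH : (wreath G G').Adj (x, w) (y, w) :=
      Or.inr ⟨hxy, SimpleGraph.Iso.refl, rfl⟩
    have hpos' : 1 ≤ (wreath G G').maxDegree :=
      (((wreath G G').degree_pos_iff_exists_adj (x, w)).2 ⟨_, hH⟩).trans_le
        ((wreath G G').degree_le_maxDegree _)
    have h1 := CI_of_EC hpos' hEC
    apply le_antisymm
    · exact Nat.sInf_le h1
    · exact le_of_CI (Nat.sInf_mem ⟨_, h1⟩)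

end Pool.Agent.N690.AL
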