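import Pool.Agent.N690.AL.Fan
import Pool.Agent.N690.AL.Asm

/-!
# The colouring of one class of orbits
-/

set_option autoImplicit false

namespace Pool.Agent.N690.AL

open Finset SimpleGraph Pool.Agent.X76.Wr
open Pool.Agent.Results.MP_633d19_co.SmallDegree
open Pool.Agent.Results.MP_633d19_co.SmallDegree.MGraph

lemma sym_subset {α : Type} [DecidableEq α] (Z : Finset α) (σ : α → α) (h1 : ∀ z ∈ Z, σ z ∈ Z)
    (h2 : ∀ z ∈ Z, σ (σ z) = z) : ∀ n, 2 * n ≤ Z.card →
    ∃ K ⊆ Z, K.card = 2 * n ∧ ∀ z ∈ K, σ z ∈ K := by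
  intro n
  induction n with
  | zero => intro _; exact ⟨∅, empty_subset _, rfl, fun z hz => absurd hz (notMem_empty z)⟩
  | succ n ih =>
    intro hn
    obtain ⟨K, hKZ, hKc, hKs⟩ := ih (by omega)
    have hc : 1 < (Z \ K).card := by
      have := Finset.card_sdiff_add_card_eq_card hKZ
      omega
    have hs : ∀ z ∈ Z \ K, σ z ∈ Z \ K := by
      intro z hz
      rw [mem_sdiff] at hz ⊢
      refine ⟨h1 z hz.1, fun h => hz.2 ?_⟩
      have := hKs _ h
      rwa [h2 z hz.1] at this
    by_cases hf : ∃ z ∈ Z \ K, σ z ≠ z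
    · obtain ⟨z, hz, hzz⟩ := hf
      have hz' := hs z hz
      rw [mem_sdiff] at hz hz'
      refine ⟨insert z (insert (σ z) K), ?_, ?_, ?_⟩
      · intro a ha
        rw [mem_insert, mem_insert] at ha
        rcases ha with rfl | rfl | ha
        · exact hz.1
        · exact hz'.1
        · exact hKZ ha
      · rw [card_insert_of_notMem, card_insert_of_notMem hz'.2, hKc]
        · ring
        · rw [mem_insert]
          rintro (h | h)
          · exact hzz h.symm
          · exact hz.2 h
      · intro a ha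
        rw [mem_insert, mem_insert] at ha ⊢
        rcases ha with rfl | rfl | ha
        · right; left; rfl
        · left; exact h2 z hz.1
        · right; right; exact hKs a ha
    · push Not at hf
      obtain ⟨z, hz, z', hz', hne⟩ := Finset.one_lt_card.1 hc
      have e1 := hf z hz
      have e2 := hf z' hz'
      rw [mem_sdiff] at hz hz'
      refine ⟨insert z (insert z' K), ?_, ?_, ?_⟩
      · intro a ha
        rw [mem_insert, mem_insert] at ha
        rcases ha with rfl | rfl | ha
        · exact hz.1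
        · exact hz'.1
        · exact hKZ ha
      · rw [card_insert_of_notMem, card_insert_of_notMem hz'.2, hKc]
        · ring
        · rw [mem_insert]
          rintro (h | h)
          · exact hne h
          · exact hz.2 h
      · intro a ha
        rw [mem_insert, mem_insert] at ha ⊢
        rcases ha with rfl | rfl | ha
        · left; exact e1
        · right; left; exact e2
        · right; right; exact hKs a ha

/-- the constant colours -/
lemma exists_K (d m g : ℕ) (hg : Even g) : ∃ (K : Finset (ℕ × ℕ)) (κ : ℕ × ℕ → ℕ),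
    K ⊆ range d ×ˢ Ico 1 m ∧
    ((K.card = g ∧ g ≤ d * (m - 1)) ∨ (K = range d ×ˢ Ico 1 m ∧ d * (m - 1) ≤ g)) ∧
    (∀ t j, (t, j) ∈ K → (t, m - j) ∈ K) ∧ (∀ z ∈ K, κ z < g) ∧
    (∀ z ∈ K, ∀ z' ∈ K, κ z = κ z' → z = z') := by
  classical
  have hZ : (range d ×ˢ Ico 1 m).card = d * (m - 1) := by
    rw [card_product, card_range, Nat.card_Ico]
  have hexK : ∃ K : Finset (ℕ × ℕ), K ⊆ range d ×ˢ Ico 1 m ∧
      ((K.card = g ∧ g ≤ d * (m - 1)) ∨ (K = range d ×ˢ Ico 1 m ∧ d * (m - 1) ≤ g)) ∧
      (∀ t j, (t, j) ∈ K → (t, m - j) ∈ K) := by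
    rcases le_total g (d * (m - 1)) with h | h
    · obtain ⟨n, hn⟩ := hg
      obtain ⟨K, h1, h2, h3⟩ := sym_subset (range d ×ˢ Ico 1 m) (fun z => (z.1, m - z.2))
        (by
          rintro ⟨t, j⟩ hz
          rw [mem_product, mem_range, mem_Ico] at hz ⊢
          simp only at hz ⊢
          omega)
        (by
          rintro ⟨t, j⟩ hz
          rw [mem_product, mem_range, mem_Ico] at hz
          simp only at hz ⊢
          congr 1
          omega) n (by rw [hZ]; omega)
      exact ⟨K, h1, Or.inl ⟨by omega, h⟩, fun t j htj => h3 (t, j) htj⟩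
    · refine ⟨_, Finset.Subset.refl _, Or.inr ⟨rfl, h⟩, ?_⟩
      intro t j htj
      rw [mem_product, mem_range, mem_Ico] at htj ⊢
      simp only at htj ⊢
      omega
  obtain ⟨K, h1, h2, h3⟩ := hexK
  have hcard : K.card ≤ g := by
    rcases h2 with h | h
    · exact h.1.le
    · rw [h.1, hZ]; exact h.2
  refine ⟨K, fun z => if h : z ∈ K then (K.equivFin ⟨z, h⟩).val else 0, h1, h2, h3, ?_, ?_⟩
  · intro z hz
    simp only [hz, dite_true]
    exact lt_of_lt_of_le (K.equivFin ⟨z, hz⟩).2 hcard
  · intro z hz z' hz' h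
    simp only [hz, hz', dite_true] at h
    have := K.equivFin.injective (Fin.ext h)
    exact congrArg Subtype.val this

/-- difference of positions -/
def df (m i i' : ℕ) : ℕ := (i' + m - i) % m

lemma df_range {m i i' : ℕ} (hi : i < m) (hi' : i' < m) (h : i ≠ i') :
    1 ≤ df m i i' ∧ df m i i' < m := by
  unfold df
  rw [mod_aux m i i' hi hi']
  split_ifs <;> omega

lemma df_symm {m i i' : ℕ} (hi : i < m) (hi' : i' < m) (h : i ≠ i') :
    df m i' i = m - df m i i' := by
  unfold df
  rw [mod_aux m i i' hi hi', mod_aux m i' i hi' hi]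
  split_ifs <;> omega

lemma df_inj {m i i' i'' : ℕ} (hi : i < m) (hi' : i' < m) (hi'' : i'' < m)
    (h : df m i i' = df m i i'') : i' = i'' := by
  unfold df at h
  rw [mod_aux m i i' hi hi', mod_aux m i i'' hi hi''] at h
  split_ifs at h <;> omega

lemma df_inj' {m i i' i'' : ℕ} (hi : i < m) (hi' : i' < m) (hi'' : i'' < m)
    (h : df m i' i = df m i'' i) : i' = i'' := by
  unfold df at h
  rw [mod_aux m i' i hi' hi, mod_aux m i'' i hi'' hi] at h
  split_ifs at h <;> omega

/-- the edges of the auxiliary multigraph -/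
def EP {W : Type} (G' : SimpleGraph W) (d : ℕ) (P : Set W) (idx : W → ℕ)
    (K : ℕ → Finset (ℕ × ℕ)) (p : Option (Fin d) × Sym2 W) : Prop :=
  (∀ v ∈ p.2, v ∈ P) ∧ (p.1 = none → p.2 ∈ G'.edgeSet) ∧
    ∀ t, p.1 = some t → ∀ a b, p.2 = s(a, b) → a ≠ b ∧ R G' a b ∧
      (t.val, df (orb G' a) (idx a) (idx b)) ∉ K (orb G' a)

/-- the auxiliary multigraph -/
def MG {W : Type} (G' : SimpleGraph W) (d : ℕ) (P : Set W) (idx : W → ℕ)
    (K : ℕ → Finset (ℕ × ℕ)) : MGraph W {p // EP G' d P idx K p} where
  ends e := e.1.2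
  loopless := by
    rintro ⟨⟨o, e⟩, h1, h2, h3⟩ hd
    rcases o with _ | t
    · exact G'.not_isDiag_of_mem_edgeSet (h2 rfl) hd
    · induction e using Sym2.ind with
      | _ a b => exact (h3 t rfl a b rfl).1 (Sym2.mk_isDiag_iff.1 hd)

theorem core {W : Type} [Fintype W] (G' : SimpleGraph W) [DecidableRel G'.Adj] (d D : ℕ)
    (hd : 1 ≤ d) (hD : ∀ w, d * orb G' w + G'.degree w ≤ D) (x0 : W) :
    ∃ (c' : W → W → ℕ) (η : Bool → ℕ → W → W → ℕ), ∀ x ∈ Cls G' x0, Loc G' d D c' η x := by
  classical
  obtain ⟨idx, hidx1, hidx2⟩ := exists_idx G'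
  obtain ⟨P, hP⟩ : ∃ P, P = Cls G' x0 := ⟨_, rfl⟩
  have hPadj : ∀ x y, x ∈ P → G'.Adj x y → y ∈ P := by
    intro x y hx hxy
    rw [hP] at hx ⊢
    exact Relation.ReflTransGen.tail hx (Or.inr hxy)
  have hPR : ∀ x y, x ∈ P → R G' x y → y ∈ P := by
    intro x y hx hxy
    rw [hP] at hx ⊢
    exact Relation.ReflTransGen.tail hx (Or.inl hxy)
  obtain ⟨z, hzP, hz⟩ : ∃ z ∈ P, ∀ w ∈ P, G'.degree w ≤ G'.degree z := by
    obtain ⟨z, hz1, hz2⟩ := Finset.exists_max_image (univ.filter fun w => w ∈ P)
      (fun w => G'.degree w) ⟨x0, mem_filter.2 ⟨mem_univ _, by rw [hP]; exact mem_Cls G' x0⟩⟩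
    exact ⟨z, (mem_filter.1 hz1).2, fun w hw => hz2 w (mem_filter.2 ⟨mem_univ _, hw⟩)⟩
  have horb : ∀ w, 1 ≤ orb G' w := fun w => lt_of_le_of_lt (Nat.zero_le _) (hidx1 w)
  have hdm : ∀ w, d * (orb G' w - 1) + d = d * orb G' w := by
    intro w
    obtain ⟨m, hm⟩ : ∃ m, orb G' w = m + 1 := ⟨orb G' w - 1, by have := horb w; omega⟩
    rw [hm, Nat.add_sub_cancel, Nat.mul_succ]
  obtain ⟨g, hg⟩ : ∃ g, g = 2 * ((D - G'.degree z - 1) / 2) := ⟨_, rfl⟩
  have hgev : Even g := ⟨(D - G'.degree z - 1) / 2, by omega⟩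
  obtain ⟨k, hk⟩ : ∃ k, k = D - g := ⟨_, rfl⟩
  have hDz := hD z
  have hdmz := hdm z
  have hkz : G'.degree z + 1 ≤ k := by omega
  have hkg : k + g = D := by omega
  have hDg : D ≤ g + 2 + G'.degree z := by omega
  choose K κ hK1 hK2 hK3 hK4 hK5 using fun m => exists_K d m g hgev
  have hKle : ∀ m, (K m).card ≤ d * (m - 1) := by
    intro m
    have := Finset.card_le_card (hK1 m)
    rwa [card_product, card_range, Nat.card_Ico] at this
  obtain ⟨M, hM⟩ : ∃ M, M = MG G' d P idx K := ⟨_, rfl⟩
  have hends : ∀ e, M.ends e = e.1.2 := fun e => by rw [hM]; rfl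
  -- the neighbours
  let T : W → Finset (Option (Fin d) × W) := fun v =>
    (G'.neighborFinset v).image (fun w => (none, w)) ∪
    (univ.filter fun q : Fin d × W => R G' v q.2 ∧ v ≠ q.2 ∧
      (q.1.val, df (orb G' v) (idx v) (idx q.2)) ∉ K (orb G' v)).image (fun q => (some q.1, q.2))
  have hTn : ∀ v w, G'.Adj v w → (none, w) ∈ T v := by
    intro v w h
    refine mem_union_left _ (mem_image.2 ⟨w, ?_, rfl⟩)
    rw [SimpleGraph.mem_neighborFinset]; exact h
  have hTs : ∀ v w (t : Fin d), R G' v w → v ≠ w →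
      (t.val, df (orb G' v) (idx v) (idx w)) ∉ K (orb G' v) → (some t, w) ∈ T v := by
    intro v w t h1 h2 h3
    exact mem_union_right _ (mem_image.2 ⟨(t, w), mem_filter.2 ⟨mem_univ _, h1, h2, h3⟩, rfl⟩)
  have hTE : ∀ (v : W) (e : {p // EP G' d P idx K p}), v ∈ e.1.2 →
      ∃ q ∈ T v, (q.1, s(v, q.2)) = e.1 := by
    rintro v ⟨⟨o, e⟩, h1, h2, h3⟩ hv
    obtain ⟨w, hw⟩ := Sym2.mem_iff_exists.mp hv
    change e = s(v, w) at hw
    subst hw
    rcases o with _ | t
    · exact ⟨(none, w), hTn v w (by simpa using h2 rfl), rfl⟩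
    · obtain ⟨h4, h5, h6⟩ := h3 t rfl v w rfl
      exact ⟨(some t, w), hTs v w t h5 h4 h6, rfl⟩
  have hTcard : ∀ v, (T v).card + (K (orb G' v)).card ≤ G'.degree v + d * (orb G' v - 1) := by
    intro v
    have e1 : ((G'.neighborFinset v).image (fun w => ((none : Option (Fin d)), w))).card ≤
        G'.degree v := by
      refine Finset.card_image_le.trans (le_of_eq ?_)
      rw [SimpleGraph.card_neighborFinset_eq_degree]
    have e2 : (univ.filter fun q : Fin d × W => R G' v q.2 ∧ v ≠ q.2 ∧
        (q.1.val, df (orb G' v) (idx v) (idx q.2)) ∉ K (orb G' v)).card ≤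
        ((range d ×ˢ Ico 1 (orb G' v)) \ K (orb G' v)).card := by
      refine Finset.card_le_card_of_injOn
        (fun q => (q.1.val, df (orb G' v) (idx v) (idx q.2))) ?_ ?_
      · rintro ⟨t, w⟩ hq
        rw [mem_coe, mem_filter] at hq
        obtain ⟨-, h1, h2, h3⟩ := hq
        rw [mem_coe, mem_sdiff, mem_product, mem_range, mem_Ico]
        refine ⟨⟨t.2, ?_⟩, h3⟩
        exact df_range (hidx1 v) (by rw [orb_eq G' v w h1]; exact hidx1 w)
          (fun h => h2 (hidx2 _ _ h1 h))
      · rintro ⟨t, w⟩ hq ⟨t', w'⟩ hq' heq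
        rw [mem_coe, mem_filter] at hq hq'
        obtain ⟨-, h1, h2, h3⟩ := hq
        obtain ⟨-, h1', h2', h3'⟩ := hq'
        simp only [Prod.mk.injEq] at heq
        have h4 : idx w = idx w' := df_inj (hidx1 v) (by rw [orb_eq G' v w h1]; exact hidx1 w)
          (by rw [orb_eq G' v w' h1']; exact hidx1 w') heq.2
        have h5 : w = w' := hidx2 _ _ (R.trans (R.symm h1) h1') h4
        exact Prod.ext (Fin.ext heq.1) h5
    have e3 := Finset.card_sdiff_add_card_eq_card (hK1 (orb G' v))
    rw [card_product, card_range, Nat.card_Ico] at e3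
    have e4 : (T v).card ≤ ((G'.neighborFinset v).image
      (fun w => ((none : Option (Fin d)), w))).card +
      ((univ.filter fun q : Fin d × W => R G' v q.2 ∧ v ≠ q.2 ∧
      (q.1.val, df (orb G' v) (idx v) (idx q.2)) ∉ K (orb G' v)).image
        (fun q => ((some q.1 : Option (Fin d)), q.2))).card := Finset.card_union_le _ _
    have e5 := Finset.card_image_le (s := univ.filter fun q : Fin d × W => R G' v q.2 ∧ v ≠ q.2 ∧
      (q.1.val, df (orb G' v) (idx v) (idx q.2)) ∉ K (orb G' v))
      (f := fun q => ((some q.1 : Option (Fin d)), q.2))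
    omega
  have hdegT : ∀ v, M.degree v ≤ (T v).card := by
    intro v
    rw [deg_eq]
    refine le_trans ?_ (Finset.card_image_le (s := T v) (f := fun q => (q.1, s(v, q.2))))
    refine Finset.card_le_card_of_injOn (fun e => e.1) ?_ (fun e _ f _ h => Subtype.ext h)
    intro e he
    rw [mem_coe, mem_filter, hends] at he
    obtain ⟨q, hq, hqe⟩ := hTE v e he.2
    rw [mem_coe, mem_image]
    exact ⟨q, hq, hqe⟩
  have hdeg0 : ∀ v, v ∉ P → M.degree v = 0 := by
    intro v hv
    rw [deg_eq, Finset.card_eq_zero, Finset.filter_eq_empty_iff]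
    intro e _ he
    rw [hends] at he
    exact hv (e.2.1 v he)
  have hmuld : ∀ x y, M.mult x y ≤ M.degree y := by
    intro x y
    rw [mult_eq, deg_eq]
    refine Finset.card_le_card fun e he => ?_
    rw [mem_filter] at he ⊢
    exact ⟨he.1, by rw [he.2]; simp⟩
  have hmul1 : ∀ x y, M.mult x y ≤ d + 1 := by
    intro x y
    rw [mult_eq]
    have : (univ : Finset (Option (Fin d))).card = d + 1 := by
      rw [Finset.card_univ, Fintype.card_option, Fintype.card_fin]
    rw [← this]
    refine Finset.card_le_card_of_injOn (fun e => e.1.1) (fun _ _ => mem_coe.2 (mem_univ _)) ?_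
    intro e he f hf h
    rw [mem_coe, mem_filter, hends] at he hf
    exact Subtype.ext (Prod.ext h (he.2.trans hf.2.symm))
  have hmulK : ∀ x y, K (orb G' y) = range d ×ˢ Ico 1 (orb G' y) → M.mult x y ≤ 1 := by
    intro x y hK
    rw [mult_eq]
    have : (({none} : Finset (Option (Fin d)))).card = 1 := Finset.card_singleton _
    rw [← this]
    refine Finset.card_le_card_of_injOn (fun e => e.1.1) ?_ ?_
    · rintro ⟨⟨o, e⟩, h1, h2, h3⟩ he
      rw [mem_coe, mem_filter, hends] at he
      rw [mem_coe, mem_singleton]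
      rcases o with _ | t
      · rfl
      · exfalso
        obtain ⟨h4, h5, h6⟩ := h3 t rfl y x (by rw [Sym2.eq_swap]; exact he.2)
        apply h6
        rw [hK, mem_product, mem_range, mem_Ico]
        exact ⟨t.2, df_range (hidx1 y) (by rw [orb_eq G' y x h5]; exact hidx1 x)
          (fun h => h4 (hidx2 _ _ h5 h))⟩
    · intro e he f hf h
      rw [mem_coe, mem_filter, hends] at he hf
      exact Subtype.ext (Prod.ext h (he.2.trans hf.2.symm))
  have hmulall : ∀ x y, M.mult x y = d + 1 → ∀ o, EP G' d P idx K (o, s(x, y)) := by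
    intro x y h o
    rw [mult_eq] at h
    have h1 : ((univ.filter fun e => M.ends e = s(x, y)).image (fun e => e.1.1)).card =
        (univ : Finset (Option (Fin d))).card := by
      rw [Finset.card_image_of_injOn, h, Finset.card_univ, Fintype.card_option, Fintype.card_fin]
      intro e he f hf h
      rw [mem_coe, mem_filter, hends] at he hf
      exact Subtype.ext (Prod.ext h (he.2.trans hf.2.symm))
    have h2 := Finset.eq_of_subset_of_card_le (subset_univ _) (le_of_eq h1.symm)
    have h3 : o ∈ (univ.filter fun e => M.ends e = s(x, y)).image (fun e => e.1.1) := by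
      rw [h2]; exact mem_univ _
    obtain ⟨e, he, heo⟩ := mem_image.1 h3
    rw [mem_filter, hends] at he
    have h4 : e.1 = (o, s(x, y)) := Prod.ext heo he.2
    rw [← h4]
    exact e.2
  -- numerical facts
  have hcase : ∀ v ∈ P, M.degree v + 1 ≤ k ∧
      ((K (orb G' v)).card = g ∧ M.degree v + d ≤ k ∨
        K (orb G' v) = range d ×ˢ Ico 1 (orb G' v)) := by
    intro v hv
    have h1 := hdegT v
    have h2 := hTcard v
    have h3 := hD v
    have h4 := hdm v
    have h5 := hz v hv
    rcases hK2 (orb G' v) with h6 | h6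
    · exact ⟨by omega, Or.inl ⟨h6.1, by omega⟩⟩
    · have h7 : (K (orb G' v)).card = d * (orb G' v - 1) := by
        rw [h6.1, card_product, card_range, Nat.card_Ico]
      exact ⟨by omega, Or.inr h6.1⟩
  have hcol : M.Colorable k := by
    by_contra hnot
    obtain ⟨X, ⟨x1, hx1⟩, hX⟩ := thmA M k
      (by
        intro v
        by_cases hv : v ∈ P
        · exact (hcase v hv).1
        · rw [hdeg0 v hv]; omega)
      (by
        intro x y hxy
        by_cases hy : y ∈ P
        · have h1 := hmul1 x y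
          rcases (hcase y hy).2 with h2 | h2
          · omega
          · have h3 := hmulK x y h2
            have h4 := (hcase y hy).1
            omega
        · have h1 := hmuld x y
          rw [hdeg0 y hy] at h1 ⊢
          omega) hnot
    have hinfo : ∀ x y, M.degree y + M.mult x y = k + 1 →
        (K (orb G' y)).card = g ∧ ∀ o, EP G' d P idx K (o, s(x, y)) := by
      intro x y h
      have h1 := hmul1 x y
      have h5 := hmuld x y
      by_cases hy : y ∈ P
      · rcases (hcase y hy).2 with h2 | h2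
        · exact ⟨h2.1, hmulall x y (by omega)⟩
        · have h3 := hmulK x y h2
          have h4 := (hcase y hy).1
          omega
      · rw [hdeg0 y hy] at h h5
        omega
    have hx1P : x1 ∈ P := by
      obtain ⟨e, he⟩ := (hX x1 hx1).1
      rw [hends] at he
      exact e.2.1 x1 he
    have hPx1 : P = Cls G' x1 := by
      rw [hP] at hx1P ⊢
      exact Cls_eq hx1P
    have hprop : ∀ w, Relation.ReflTransGen (fun a b => R G' a b ∨ G'.Adj a b) x1 w →
        ∃ x ∈ X, R G' w x := by
      intro w hw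
      induction hw with
      | refl => exact ⟨x1, hx1, R.refl x1⟩
      | tail _ hst ih =>
        rename_i a b _
        obtain ⟨x, hxX, hax⟩ := ih
        rcases hst with hab | hab
        · exact ⟨x, hxX, R.trans (R.symm hab) hax⟩
        · obtain ⟨y, y', -, ⟨-, h1, h2⟩, -⟩ := (hX x hxX).2
          obtain ⟨-, h3⟩ := hinfo x y h1
          obtain ⟨-, h4, -⟩ := (h3 (some ⟨0, hd⟩)).2.2 _ rfl x y rfl
          obtain ⟨φ, hφ⟩ := R.trans hax h4
          have h5 : G'.Adj y (φ b) := by
            rw [← hφ]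
            exact φ.map_adj_iff.2 hab
          have h6 : y ∈ P := (h3 none).1 y (by simp)
          have h7 : EP G' d P idx K (none, s(y, φ b)) := by
            refine ⟨?_, ?_, ?_⟩
            · intro v hv
              rw [Sym2.mem_iff] at hv
              rcases hv with rfl | rfl
              · exact h6
              · exact hPadj _ _ h6 h5
            · intro _
              exact h5
            · intro t ht
              exact absurd ht (by simp)
          refine ⟨φ b, h2 ⟨_, h7⟩ ?_ (φ b) ?_, ⟨φ, rfl⟩⟩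
          · rw [hends]; simp
          · rw [hends]; simp
    obtain ⟨x, hxX, hzx⟩ := hprop z (by rw [hPx1] at hzP; exact hzP)
    obtain ⟨y, y', hyy, ⟨-, h1, -⟩, ⟨-, h1', -⟩⟩ := (hX x hxX).2
    obtain ⟨h2, h3⟩ := hinfo x y h1
    obtain ⟨-, h3'⟩ := hinfo x y' h1'
    obtain ⟨h4, h5, h6⟩ := (h3 (some ⟨0, hd⟩)).2.2 _ rfl x y rfl
    obtain ⟨h4', h5', h6'⟩ := (h3' (some ⟨0, hd⟩)).2.2 _ rfl x y' rfl
    have hoz : orb G' z = orb G' x := orb_eq G' z x hzx
    have hoy : orb G' x = orb G' y := orb_eq G' x y h5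
    have hoy' : orb G' x = orb G' y' := orb_eq G' x y' h5'
    have hcK := Finset.card_sdiff_add_card_eq_card (hK1 (orb G' x))
    rw [card_product, card_range, Nat.card_Ico] at hcK
    have h7 : 1 < ((range d ×ˢ Ico 1 (orb G' x)) \ K (orb G' x)).card := by
      rw [Finset.one_lt_card]
      refine ⟨(0, df (orb G' x) (idx x) (idx y)), ?_, (0, df (orb G' x) (idx x) (idx y')), ?_, ?_⟩
      · rw [mem_sdiff, mem_product, mem_range, mem_Ico]
        exact ⟨⟨hd, df_range (hidx1 x) (by rw [hoy]; exact hidx1 y)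
          (fun h => h4 (hidx2 _ _ h5 h))⟩, h6⟩
      · rw [mem_sdiff, mem_product, mem_range, mem_Ico]
        exact ⟨⟨hd, df_range (hidx1 x) (by rw [hoy']; exact hidx1 y')
          (fun h => h4' (hidx2 _ _ h5' h))⟩, h6'⟩
      · intro h
        have h8 := df_inj (hidx1 x) (by rw [hoy]; exact hidx1 y) (by rw [hoy']; exact hidx1 y')
          (Prod.mk.inj h).2
        exact hyy (hidx2 _ _ (R.trans (R.symm h5) h5') h8)
    rw [hoy, h2, ← hoy] at hcK
    rw [hoz] at hDz hdmz
    rw [← hoy] at h2
    omega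
  -- the colouring
  obtain ⟨cM, hcM⟩ := hcol
  let cc : Option (Fin d) × Sym2 W → ℕ := fun p =>
    if h : EP G' d P idx K p then (cM ⟨p, h⟩).val else 0
  have hcclt : ∀ p, EP G' d P idx K p → cc p < k := by
    intro p h
    simp only [cc, dif_pos h]
    exact (cM ⟨p, h⟩).2
  have hccne : ∀ p q v, EP G' d P idx K p → EP G' d P idx K q → p ≠ q → v ∈ p.2 → v ∈ q.2 →
      cc p ≠ cc q := by
    intro p q v hp hq hpq hvp hvq h
    simp only [cc, dif_pos hp, dif_pos hq] at h
    refine hcM ⟨p, hp⟩ ⟨q, hq⟩ (fun h' => hpq (congrArg Subtype.val h')) ⟨v, ?_, ?_⟩ (Fin.ext h)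
    · rw [hends]; exact hvp
    · rw [hends]; exact hvq
  let jf : Bool → W → W → ℕ := fun b x y =>
    if b then df (orb G' x) (idx x) (idx y) else df (orb G' x) (idx y) (idx x)
  let η : Bool → ℕ → W → W → ℕ := fun b t x y =>
    if (t, jf b x y) ∈ K (orb G' x) then k + κ (orb G' x) (t, jf b x y) else
      if h : t < d then cc (some ⟨t, h⟩, s(x, y)) else 0
  have hRlt : ∀ x y, R G' x y → idx y < orb G' x := fun x y h => by
    rw [orb_eq G' x y h]; exact hidx1 y
  have hRne : ∀ x y, R G' x y → x ≠ y → idx x ≠ idx y := fun x y h h' h'' =>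
    h' (hidx2 _ _ h h'')
  have hjs : ∀ b x y, R G' x y → jf b x y = jf (!b) y x := by
    intro b x y h
    cases b <;> simp [jf, orb_eq G' x y h]
  have hjK : ∀ b t x y, R G' x y → x ≠ y → ((t, jf b x y) ∉ K (orb G' x)) →
      (t, df (orb G' x) (idx x) (idx y)) ∉ K (orb G' x) ∧
      (t, df (orb G' x) (idx y) (idx x)) ∉ K (orb G' x) := by
    intro b t x y h hne hn
    have e1 := df_symm (hidx1 x) (hRlt x y h) (hRne x y h hne)
    have e2 := df_symm (hRlt x y h) (hidx1 x) (hRne x y h hne).symm
    cases b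
    · have hn' : (t, df (orb G' x) (idx y) (idx x)) ∉ K (orb G' x) := by simpa [jf] using hn
      refine ⟨fun h' => hn' ?_, hn'⟩
      rw [e1]
      exact hK3 _ _ _ h'
    · have hn' : (t, df (orb G' x) (idx x) (idx y)) ∉ K (orb G' x) := by simpa [jf] using hn
      refine ⟨hn', fun h' => hn' ?_⟩
      rw [e2]
      exact hK3 _ _ _ h'
  have hjinj : ∀ b x y y', R G' x y → R G' x y' → jf b x y = jf b x y' → y = y' := by
    intro b x y y' h h' hj
    have : idx y = idx y' := by
      cases b
      · exact df_inj' (hidx1 x) (hRlt x y h) (hRlt x y' h') (by simpa [jf] using hj)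
      · exact df_inj (hidx1 x) (hRlt x y h) (hRlt x y' h') (by simpa [jf] using hj)
    exact hidx2 _ _ (R.trans (R.symm h) h') this
  have hEPn : ∀ x y, x ∈ P → G'.Adj x y → EP G' d P idx K (none, s(x, y)) := by
    intro x y hx hxy
    refine ⟨?_, ?_, ?_⟩
    · intro v hv
      rw [Sym2.mem_iff] at hv
      rcases hv with rfl | rfl
      · exact hx
      · exact hPadj _ _ hx hxy
    · intro _; exact hxy
    · intro t ht; exact absurd ht (by simp)
  have hEPs : ∀ b t (ht : t < d) x y, x ∈ P → R G' x y → x ≠ y →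
      ((t, jf b x y) ∉ K (orb G' x)) → EP G' d P idx K (some ⟨t, ht⟩, s(x, y)) := by
    intro b t ht x y hx hxy hne hn
    obtain ⟨n1, n2⟩ := hjK b t x y hxy hne hn
    refine ⟨?_, ?_, ?_⟩
    · intro v hv
      rw [Sym2.mem_iff] at hv
      rcases hv with rfl | rfl
      · exact hx
      · exact hPR _ _ hx hxy
    · intro h; exact absurd h (by simp)
    · intro t' ht' a b' hab
      have e1 : (⟨t, ht⟩ : Fin d) = t' := Option.some.inj ht'
      subst e1
      rw [Sym2.eq_iff] at hab
      rcases hab with ⟨rfl, rfl⟩ | ⟨rfl, rfl⟩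
      · exact ⟨hne, hxy, n1⟩
      · refine ⟨hne.symm, hxy.symm, ?_⟩
        rw [orb_eq G' _ _ hxy.symm]
        exact n2
  have hηK : ∀ b t x y, (t, jf b x y) ∈ K (orb G' x) →
      η b t x y = k + κ (orb G' x) (t, jf b x y) := by
    intro b t x y h
    simp only [η, if_pos h]
  have hηn : ∀ b t x y (ht : t < d), (t, jf b x y) ∉ K (orb G' x) →
      η b t x y = cc (some ⟨t, ht⟩, s(x, y)) := by
    intro b t x y ht h
    simp only [η, if_neg h, dif_pos ht]
  refine ⟨fun x y => cc (none, s(x, y)), η, ?_⟩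
  intro x hx
  rw [← hP] at hx
  refine ⟨?_, ?_, ?_, ?_, ?_, ?_, ?_⟩
  · -- c1
    intro y hy
    refine ⟨?_, ?_⟩
    · show cc (none, s(x, y)) = cc (none, s(y, x))
      rw [Sym2.eq_swap]
    · have := hcclt _ (hEPn x y hx hy)
      show cc (none, s(x, y)) < D
      omega
  · -- c2
    intro y y' hy hy' hne
    refine hccne _ _ x (hEPn x y hx hy) (hEPn x y' hx hy') ?_ (by simp) (by simp)
    intro h
    exact hne (Sym2.congr_right.1 (Prod.mk.inj h).2)
  · -- e1
    intro b t y ht hxy hne
    refine ⟨?_, ?_⟩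
    · have e1 := hjs b x y hxy
      have e2 := orb_eq G' x y hxy
      by_cases h : (t, jf b x y) ∈ K (orb G' x)
      · have h' : (t, jf (!b) y x) ∈ K (orb G' y) := by rw [← e1, ← e2]; exact h
        rw [hηK b t x y h, hηK (!b) t y x h', e1, e2]
      · have h' : (t, jf (!b) y x) ∉ K (orb G' y) := by rw [← e1, ← e2]; exact h
        rw [hηn b t x y ht h, hηn (!b) t y x ht h', Sym2.eq_swap]
    · by_cases h : (t, jf b x y) ∈ K (orb G' x)
      · rw [hηK b t x y h]
        have := hK4 _ _ h
        omega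
      · rw [hηn b t x y ht h]
        have := hcclt _ (hEPs b t ht x y hx hxy hne h)
        omega
  · -- e2
    intro b t y y' ht hxy hxy' hne hne' hyy
    by_cases h : (t, jf b x y) ∈ K (orb G' x)
    · rw [hηK b t x y h]
      by_cases h' : (t, jf b x y') ∈ K (orb G' x)
      · rw [hηK b t x y' h']
        intro heq
        have := hK5 _ _ h _ h' (by omega)
        exact hyy (hjinj b x y y' hxy hxy' (Prod.mk.inj this).2)
      · rw [hηn b t x y' ht h']
        have := hcclt _ (hEPs b t ht x y' hx hxy' hne' h')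
        omega
    · rw [hηn b t x y ht h]
      by_cases h' : (t, jf b x y') ∈ K (orb G' x)
      · rw [hηK b t x y' h']
        have := hcclt _ (hEPs b t ht x y hx hxy hne h)
        omega
      · rw [hηn b t x y' ht h']
        refine hccne _ _ x (hEPs b t ht x y hx hxy hne h) (hEPs b t ht x y' hx hxy' hne' h') ?_
          (by simp) (by simp)
        intro heq
        exact hyy (Sym2.congr_right.1 (Prod.mk.inj heq).2)
  · -- e3
    intro b b' t t' y y' ht ht' htt hxy hxy' hne hne'
    by_cases h : (t, jf b x y) ∈ K (orb G' x)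
    · rw [hηK b t x y h]
      by_cases h' : (t', jf b' x y') ∈ K (orb G' x)
      · rw [hηK b' t' x y' h']
        intro heq
        have := hK5 _ _ h _ h' (by omega)
        exact htt (Prod.mk.inj this).1
      · rw [hηn b' t' x y' ht' h']
        have := hcclt _ (hEPs b' t' ht' x y' hx hxy' hne' h')
        omega
    · rw [hηn b t x y ht h]
      by_cases h' : (t', jf b' x y') ∈ K (orb G' x)
      · rw [hηK b' t' x y' h']
        have := hcclt _ (hEPs b t ht x y hx hxy hne h)
        omega
      · rw [hηn b' t' x y' ht' h']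
        refine hccne _ _ x (hEPs b t ht x y hx hxy hne h) (hEPs b' t' ht' x y' hx hxy' hne' h') ?_
          (by simp) (by simp)
        intro heq
        exact htt (congrArg Fin.val (Option.some.inj (Prod.mk.inj heq).1))
  · -- ce
    intro b t y w ht hxy hne hw
    by_cases h : (t, jf b x y) ∈ K (orb G' x)
    · rw [hηK b t x y h]
      have := hcclt _ (hEPn x w hx hw)
      show k + κ (orb G' x) (t, jf b x y) ≠ cc (none, s(x, w))
      omega
    · rw [hηn b t x y ht h]
      refine hccne _ _ x (hEPs b t ht x y hx hxy hne h) (hEPn x w hx hw) ?_ (by simp) (by simp)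
      intro heq
      exact absurd (Prod.mk.inj heq).1 (by simp)
  · -- av
    let U : Finset ℕ := ((T x).image fun q => cc (q.1, s(x, q.2))) ∪
      ((K (orb G' x)).image fun z => k + κ (orb G' x) z)
    have hU : U.card ≤ G'.degree x + d * (orb G' x - 1) := by
      have e1 := Finset.card_union_le ((T x).image fun q => cc (q.1, s(x, q.2)))
        ((K (orb G' x)).image fun z => k + κ (orb G' x) z)
      have e2 := Finset.card_image_le (s := T x) (f := fun q => cc (q.1, s(x, q.2)))
      have e3 := Finset.card_image_le (s := K (orb G' x)) (f := fun z => k + κ (orb G' x) z)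
      have e4 := hTcard x
      show (((T x).image fun q => cc (q.1, s(x, q.2))) ∪
        ((K (orb G' x)).image fun z => k + κ (orb G' x) z)).card ≤ _
      omega
    have hA : d ≤ (range D \ U).card := by
      have e1 : (range D).card ≤ (range D \ U).card + U.card := by
        rw [← Finset.card_sdiff_add_card_inter (range D) U]
        exact Nat.add_le_add_left (Finset.card_le_card Finset.inter_subset_right) _
      rw [card_range] at e1
      have e2 := hD x
      have e3 := hdm x
      omega
    have hcard : Fintype.card (Fin d) ≤ Fintype.card {a // a ∈ range D \ U} := by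
      rw [Fintype.card_fin, Fintype.card_coe]; exact hA
    obtain ⟨gf⟩ := Function.Embedding.nonempty_of_card_le hcard
    refine ⟨fun i => if h : i < d then (gf ⟨i, h⟩).1 else 0, ?_, ?_⟩
    · intro i hi j hj hij
      simp only [hi, hj, dite_true] at hij
      have := gf.injective (Subtype.ext hij)
      exact congrArg Fin.val this
    · intro i hi
      simp only [hi, dite_true]
      have hg2 := (gf ⟨i, hi⟩).2
      rw [mem_sdiff, mem_range] at hg2
      refine ⟨hg2.1, ?_, ?_⟩
      · intro w hw heq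
        apply hg2.2
        refine mem_union_left _ (mem_image.2 ⟨(none, w), hTn x w hw, ?_⟩)
        exact heq.symm
      · intro b t y ht hxy hne heq
        apply hg2.2
        by_cases h : (t, jf b x y) ∈ K (orb G' x)
        · rw [hηK b t x y h] at heq
          exact mem_union_right _ (mem_image.2 ⟨(t, jf b x y), h, heq.symm⟩)
        · rw [hηn b t x y ht h] at heq
          refine mem_union_left _ (mem_image.2 ⟨(some ⟨t, ht⟩, y), ?_, heq.symm⟩)
          exact hTs x y ⟨t, ht⟩ hxy hne (hjK b t x y hxy hne h).1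

theorem wreath_class_one {V W : Type} [Fintype V] [Fintype W] (G : SimpleGraph V)
    (G' : SimpleGraph W) [DecidableRel G.Adj] [DecidableRel G'.Adj]
    [DecidableRel (wreath G G').Adj] (hne : ∃ x y, G.Adj x y) (hG : EC G.maxDegree G) :
    EC (wreath G G').maxDegree (wreath G G') := by
  obtain ⟨x, y, hxy⟩ := hne
  have hpos : 1 ≤ G.maxDegree :=
    ((G.degree_pos_iff_exists_adj x).2 ⟨y, hxy⟩).trans_le (G.degree_le_maxDegree x)
  exact glue G G' G.maxDegree _ hG
    (core G' G.maxDegree _ hpos fun w => max_bound G G' x w)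

end Pool.Agent.N690.AL
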