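import Pool.Agent.W411.KG.TAS

/-!
# Fans in multigraphs

If a multigraph with `deg v + 1 ≤ k` and `deg y + mult x y ≤ k + 1` is not `k`-edge-colourable, then
there is a nonempty set `X` of vertices such that every `x ∈ X` has two neighbours `y` with
`deg y + mult x y = k + 1` all of whose neighbours are in `X`.
-/

set_option autoImplicit false

namespace Pool.Agent.N690.AL

open Pool.Agent.Results.MP_633d19_co.SmallDegree
open Pool.Agent.Results.MP_633d19_co.SmallDegree.MGraph
open Pool.Agent.W998.KG

variable {V E : Type}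

/-- sub-multigraph -/
def sub (G : MGraph V E) (S : Finset E) : MGraph V {e // e ∈ S} where
  ends e := G.ends e.1
  loopless e := G.loopless e.1

lemma deg_eq [Fintype E] (G : MGraph V E) (v : V) [DecidablePred fun e => v ∈ G.ends e] :
    G.degree v = (Finset.univ.filter fun e => v ∈ G.ends e).card := by
  unfold degree
  rw [Nat.card_eq_fintype_card, Fintype.card_subtype]

lemma mult_eq [Fintype E] (G : MGraph V E) (u v : V) [DecidablePred fun e => G.ends e = s(u, v)] :
    G.mult u v = (Finset.univ.filter fun e => G.ends e = s(u, v)).card := by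
  unfold mult
  rw [Nat.card_eq_fintype_card, Fintype.card_subtype]

/-- the fan equation -/
lemma fan [Finite V] [Finite E] {G : MGraph V E} {k : ℕ} (hG : ¬ G.Colorable k)
    (hdeg : ∀ v, G.degree v + 1 ≤ k) {c : E → Option (Fin k)} (hc : G.PP c) {e0 : E}
    (h0 : ∀ e, c e = none ↔ e = e0) {x y1 : V} (he0 : G.ends e0 = s(x, y1)) :
    ∃ (n : ℕ) (y : ℕ → V), y 0 = x ∧ (∀ i ≤ n, ∀ j ≤ n, y i = y j → i = j) ∧
      (∀ j, 1 ≤ j → j ≤ n → ∃ e, G.ends e = s(x, y j)) ∧
      n * k + 2 ≤ ∑ j ∈ Finset.Icc 1 n, (G.degree (y j) + G.mult x (y j)) := by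
  classical
  have := Fintype.ofFinite V
  have := Fintype.ofFinite E
  have hxy1 : x ≠ y1 := fun h => G.loopless e0 (by rw [he0, h]; exact Sym2.mk_isDiag_iff.2 rfl)
  -- a maximal star
  let Q : ℕ → Prop := fun n => ∃ (y : ℕ → V) (f : ℕ → E), y 0 = x ∧ f 0 = e0 ∧ y 1 = y1 ∧
    TT G n y f (fun _ => 0) c
  have hQ1 : Q 1 := by
    refine ⟨fun i => if i = 0 then x else y1, fun _ => e0, by simp, rfl, by simp, ?_⟩
    refine ⟨hc, ?_, ?_, ?_, h0, ?_⟩
    · intro i hi j hj hij
      have hi' : i = 0 ∨ i = 1 := by omega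
      have hj' : j = 0 ∨ j = 1 := by omega
      rcases hi' with rfl | rfl <;> rcases hj' with rfl | rfl <;> simp_all
    · intro i _; exact Nat.zero_le _
    · intro i hi
      have : i = 0 := by omega
      subst this
      simpa using he0
    · intro i hi hi1
      omega
  have hbound : ∀ n, Q n → n ≤ Fintype.card V := by
    rintro n ⟨y, f, -, -, -, h⟩
    have h1 : (Finset.range (n + 1)).card ≤ (Finset.univ : Finset V).card := by
      refine Finset.card_le_card_of_injOn y (fun _ _ => Finset.mem_coe.2 (Finset.mem_univ _)) ?_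
      intro i hi j hj hij
      rw [Finset.mem_coe, Finset.mem_range] at hi hj
      exact h.inj i (by omega) j (by omega) hij
    rw [Finset.card_range, Finset.card_univ] at h1
    omega
  obtain ⟨n, hn1, hQn, hmax⟩ : ∃ n, 1 ≤ n ∧ Q n ∧ ¬ Q (n + 1) := by
    by_contra hcon
    push Not at hcon
    have : ∀ n, 1 ≤ n → Q n := by
      intro n hn
      induction n, hn using Nat.le_induction with
      | base => exact hQ1
      | succ n hn ih => exact hcon n hn ih
    have := hbound _ (this (Fintype.card V + 1) (by omega))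
    omega
  obtain ⟨y, f, hy0, hf0, hy1, hT⟩ := hQn
  have hne : ∀ j, 1 ≤ j → j ≤ n → x ≠ y j := by
    intro j h1 h2 h3
    have := hT.inj 0 (Nat.zero_le _) j h2 (by rw [hy0, h3])
    omega
  -- elementary
  obtain ⟨Δ, hΔ⟩ : ∃ Δ, Δ + 1 = k := ⟨k - 1, by have := hdeg x; omega⟩
  have hel := Pool.Agent.W411.KG.main hG (Δ := Δ) (fun u => by have := hdeg u; omega) (by omega)
    hT hn1
  -- closed
  have hcl : ∀ e a, x ∈ G.ends e → c e = some a → (∃ j ≤ n, G.Miss c (y j) a) →
      ∃ j, 1 ≤ j ∧ j ≤ n ∧ G.ends e = s(x, y j) := by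
    intro e a hxe hea hm
    obtain ⟨z, hz⟩ := Sym2.mem_iff_exists.mp hxe
    by_contra hcon
    push Not at hcon
    have hzx : x ≠ z := fun h => G.loopless e (by rw [hz, h]; exact Sym2.mk_isDiag_iff.2 rfl)
    have hzy : ∀ j ≤ n, y j ≠ z := by
      intro j hj hjz
      rcases Nat.eq_zero_or_pos j with rfl | hj0
      · exact hzx (by rw [← hjz, hy0])
      · exact hcon j hj0 hj (by rw [hjz]; exact hz)
    apply hmax
    refine ⟨fun i => if i = n + 1 then z else y i, fun i => if i = n then e else f i, ?_, ?_, ?_, ?_⟩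
    · have : ¬ (0 = n + 1) := by omega
      simp only [this, if_false]; exact hy0
    · have : ¬ (0 = n) := by omega
      simp only [this, if_false]; exact hf0
    · have : ¬ (1 = n + 1) := by omega
      show (if 1 = n + 1 then z else y 1) = y1
      rw [if_neg this]; exact hy1
    · refine ⟨hc, ?_, ?_, ?_, ?_, ?_⟩
      · intro i hi j hj hij
        change (if i = n + 1 then z else y i) = (if j = n + 1 then z else y j) at hij
        split_ifs at hij with h1 h2 h2
        · omega
        · exact absurd hij.symm (hzy j (by omega))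
        · exact absurd hij (hzy i (by omega))
        · exact hT.inj i (by omega) j (by omega) hij
      · intro i _; exact Nat.zero_le _
      · intro i hi
        have h3 : ¬ (0 = n + 1) := by omega
        simp only [h3, if_false]
        by_cases h1 : i = n
        · subst h1
          simp only [if_true]
          rw [hy0]; exact hz
        · have h2 : ¬ (i + 1 = n + 1) := by omega
          simp only [h1, h2, if_false]
          exact hT.ed i (by omega)
      · intro e'
        have : ¬ (0 = n) := by omega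
        simp only [this, if_false]
        exact hT.none_iff e'
      · intro i hi hi1
        by_cases h1 : i = n
        · subst h1
          simp only [if_true]
          obtain ⟨j, hj, hja⟩ := hm
          refine ⟨a, hea, j, hj, ?_⟩
          have : ¬ (j = i + 1) := by omega
          simp only [this, if_false]
          exact hja
        · simp only [h1, if_false]
          obtain ⟨b, hb, j, hj, hjb⟩ := hT.col i (by omega) hi1
          refine ⟨b, hb, j, hj, ?_⟩
          have : ¬ (j = n + 1) := by omega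
          simp only [this, if_false]
          exact hjb
  refine ⟨n, y, hy0, hT.inj, ?_, ?_⟩
  · intro j h1 h2
    refine ⟨f (j - 1), ?_⟩
    have := hT.ed (j - 1) (by omega)
    rw [this, hy0]
    congr 2
    omega
  -- counting
  let Ms : V → Finset (Fin k) := fun v => Finset.univ.filter fun a => G.Miss c v a
  have hMs : ∀ v a, a ∈ Ms v ↔ G.Miss c v a := fun v a => by simp [Ms]
  let Cs : V → Finset E := fun v => Finset.univ.filter fun e => v ∈ G.ends e ∧ e ≠ e0
  have hMC : ∀ v, k ≤ (Ms v).card + (Cs v).card := by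
    intro v
    have h1 : (Finset.univ : Finset (Fin k)) ⊆
        Ms v ∪ ((Cs v).biUnion fun e => Finset.univ.filter fun a => c e = some a) := by
      intro a _
      rw [Finset.mem_union, hMs, Finset.mem_biUnion]
      by_cases h : G.Miss c v a
      · exact Or.inl h
      · right
        unfold Miss at h
        push Not at h
        obtain ⟨e, he, hea⟩ := h
        refine ⟨e, Finset.mem_filter.2 ⟨Finset.mem_univ _, he, ?_⟩,
          Finset.mem_filter.2 ⟨Finset.mem_univ _, hea⟩⟩
        intro h2
        rw [(h0 e).2 h2] at hea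
        simp at hea
    have h2 := Finset.card_le_card h1
    rw [Finset.card_univ, Fintype.card_fin] at h2
    have h3 := Finset.card_union_le (Ms v)
      ((Cs v).biUnion fun e => Finset.univ.filter fun a => c e = some a)
    have h4 : ((Cs v).biUnion fun e => Finset.univ.filter fun a => c e = some a).card ≤
        (Cs v).card * 1 := by
      refine Finset.card_biUnion_le_card_mul _ _ _ fun e _ => ?_
      rw [Finset.card_le_one]
      intro a ha b hb
      rw [Finset.mem_filter] at ha hb
      have := ha.2.symm.trans hb.2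
      exact Option.some.inj this
    omega
  have hCd : ∀ v, (Cs v).card ≤ G.degree v := by
    intro v
    rw [deg_eq]
    exact Finset.card_le_card fun e he => by
      rw [Finset.mem_filter] at he ⊢
      exact ⟨he.1, he.2.1⟩
  have hCd1 : (Cs y1).card + 1 ≤ G.degree y1 := by
    rw [deg_eq]
    have : insert e0 (Cs y1) ⊆ Finset.univ.filter fun e => y1 ∈ G.ends e := by
      intro e he
      rw [Finset.mem_insert] at he
      rw [Finset.mem_filter]
      rcases he with rfl | he
      · exact ⟨Finset.mem_univ _, by rw [he0]; simp⟩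
      · exact ⟨Finset.mem_univ _, (Finset.mem_filter.1 he).2.1⟩
    have h1 := Finset.card_le_card this
    rw [Finset.card_insert_of_notMem (by simp [Cs])] at h1
    exact h1
  -- the sum of the numbers of missing colours
  have hdisj : ∀ i ∈ (Finset.Icc 1 n : Finset ℕ), ∀ j ∈ (Finset.Icc 1 n : Finset ℕ), i ≠ j →
      Disjoint (Ms (y i)) (Ms (y j)) := by
    intro i hi j hj hij
    rw [Finset.mem_Icc] at hi hj
    rw [Finset.disjoint_left]
    intro a ha ha'
    rw [hMs] at ha ha'
    rcases Nat.lt_or_gt_of_ne hij with h1 | h1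
    · exact hel i j h1 hj.2 a ha ha'
    · exact hel j i h1 hi.2 a ha' ha
  let U : Finset (Fin k) := (Finset.Icc 1 n).biUnion fun j => Ms (y j)
  have hU : U.card = ∑ j ∈ Finset.Icc 1 n, (Ms (y j)).card := Finset.card_biUnion hdisj
  let F' : Finset E := Finset.univ.filter fun e => ∃ j, 1 ≤ j ∧ j ≤ n ∧ G.ends e = s(x, y j)
  let F : Finset E := F'.erase e0
  have hF'mem : ∀ e, e ∈ F' ↔ ∃ j, 1 ≤ j ∧ j ≤ n ∧ G.ends e = s(x, y j) := fun e => by simp [F']
  have he0F : e0 ∈ F' := by
    rw [hF'mem]
    exact ⟨1, le_rfl, hn1, by rw [hy1]; exact he0⟩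
  have hFF : F.card + 1 = F'.card := Finset.card_erase_add_one he0F
  have hUF : U.card ≤ F.card := by
    have h1 : U ⊆ F.biUnion fun e => Finset.univ.filter fun a => c e = some a := by
      intro a ha
      obtain ⟨j, hj, hja⟩ := Finset.mem_biUnion.1 ha
      rw [Finset.mem_Icc] at hj
      rw [hMs] at hja
      have hx : ¬ G.Miss c x a := fun h => hel 0 j (by omega) hj.2 a (by rw [hy0]; exact h) hja
      unfold Miss at hx
      push Not at hx
      obtain ⟨e, he, hea⟩ := hx
      have h2 := hcl e a he hea ⟨j, hj.2, hja⟩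
      refine Finset.mem_biUnion.2 ⟨e, Finset.mem_erase.2 ⟨?_, (hF'mem e).2 h2⟩,
        Finset.mem_filter.2 ⟨Finset.mem_univ _, hea⟩⟩
      intro h3
      rw [(h0 e).2 h3] at hea
      simp at hea
    refine (Finset.card_le_card h1).trans ?_
    have h4 : (F.biUnion fun e => Finset.univ.filter fun a => c e = some a).card ≤ F.card * 1 := by
      refine Finset.card_biUnion_le_card_mul _ _ _ fun e _ => ?_
      rw [Finset.card_le_one]
      intro a ha b hb
      rw [Finset.mem_filter] at ha hb
      have := ha.2.symm.trans hb.2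
      exact Option.some.inj this
    omega
  have hFm : F'.card ≤ ∑ j ∈ Finset.Icc 1 n, G.mult x (y j) := by
    have h1 : F' ⊆ (Finset.Icc 1 n).biUnion fun j => Finset.univ.filter fun e =>
        G.ends e = s(x, y j) := by
      intro e he
      obtain ⟨j, hj1, hj2, hj3⟩ := (hF'mem e).1 he
      exact Finset.mem_biUnion.2 ⟨j, Finset.mem_Icc.2 ⟨hj1, hj2⟩,
        Finset.mem_filter.2 ⟨Finset.mem_univ _, hj3⟩⟩
    refine (Finset.card_le_card h1).trans (Finset.card_biUnion_le.trans (le_of_eq ?_))
    refine Finset.sum_congr rfl fun j _ => ?_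
    rw [mult_eq]
  have hsum : n * k + 1 ≤ ∑ j ∈ Finset.Icc 1 n, ((Ms (y j)).card + G.degree (y j)) := by
    have h1 : ∑ j ∈ Finset.Icc 1 n, (k + if j = 1 then 1 else 0) ≤
        ∑ j ∈ Finset.Icc 1 n, ((Ms (y j)).card + G.degree (y j)) := by
      refine Finset.sum_le_sum fun j hj => ?_
      have h2 := hMC (y j)
      split_ifs with h3
      · subst h3
        rw [hy1] at h2 ⊢
        omega
      · have := hCd (y j)
        omega
    rw [Finset.sum_add_distrib, Finset.sum_const, Nat.card_Icc, Finset.sum_ite_eq'] at h1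
    rw [if_pos (Finset.mem_Icc.2 ⟨le_rfl, hn1⟩)] at h1
    simpa using h1
  rw [Finset.sum_add_distrib] at hsum ⊢
  omega

theorem thmA [Finite V] [Finite E] (G : MGraph V E) (k : ℕ) (hdeg : ∀ v, G.degree v + 1 ≤ k)
    (hmul : ∀ x y, x ≠ y → G.degree y + G.mult x y ≤ k + 1) (hnot : ¬ G.Colorable k) :
    ∃ X : Set V, X.Nonempty ∧ ∀ x ∈ X, (∃ e, x ∈ G.ends e) ∧ ∃ y y', y ≠ y' ∧
      (x ≠ y ∧ G.degree y + G.mult x y = k + 1 ∧ ∀ e, y ∈ G.ends e → ∀ z ∈ G.ends e, z ∈ X) ∧
      (x ≠ y' ∧ G.degree y' + G.mult x y' = k + 1 ∧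
        ∀ e, y' ∈ G.ends e → ∀ z ∈ G.ends e, z ∈ X) := by
  classical
  have := Fintype.ofFinite V
  have := Fintype.ofFinite E
  -- a minimal set of edges which is not colourable
  let Bad : ℕ → Prop := fun m => ∃ S : Finset E, S.card = m ∧ ¬ (sub G S).Colorable k
  have hbad : ∃ m, Bad m := by
    refine ⟨_, Finset.univ, rfl, ?_⟩
    rintro ⟨c, hc⟩
    apply hnot
    refine ⟨fun e => c ⟨e, Finset.mem_univ _⟩, fun e f hef hv => ?_⟩
    exact hc ⟨e, _⟩ ⟨f, _⟩ (fun h => hef (congrArg Subtype.val h)) hv
  obtain ⟨S, hSc, hS⟩ := Nat.find_spec hbad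
  have hmin : ∀ e ∈ S, (sub G (S.erase e)).Colorable k := by
    intro e he
    by_contra hcon
    have h1 := Nat.find_min' hbad ⟨S.erase e, rfl, hcon⟩
    rw [← hSc] at h1
    have := Finset.card_erase_lt_of_mem he
    omega
  have hdle : ∀ v, (sub G S).degree v ≤ G.degree v := by
    intro v
    rw [deg_eq, deg_eq]
    refine Finset.card_le_card_of_injOn (fun e => e.1) ?_ ?_
    · intro e he
      rw [Finset.mem_coe, Finset.mem_filter] at he ⊢
      exact ⟨Finset.mem_univ _, he.2⟩
    · intro e _ f _ h; exact Subtype.ext h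
  have hmle : ∀ u v, (sub G S).mult u v ≤ G.mult u v := by
    intro u v
    rw [mult_eq, mult_eq]
    refine Finset.card_le_card_of_injOn (fun e => e.1) ?_ ?_
    · intro e he
      rw [Finset.mem_coe, Finset.mem_filter] at he ⊢
      exact ⟨Finset.mem_univ _, he.2⟩
    · intro e _ f _ h; exact Subtype.ext h
  have hdfull : ∀ v, (sub G S).degree v = G.degree v → ∀ e, v ∈ G.ends e → e ∈ S := by
    intro v hv e he
    rw [deg_eq, deg_eq] at hv
    have h1 : ((Finset.univ.filter fun e : {e // e ∈ S} => v ∈ (sub G S).ends e).image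
        (fun e => e.1)).card = (Finset.univ.filter fun e : E => v ∈ G.ends e).card := by
      rw [Finset.card_image_of_injOn (fun e _ f _ h => Subtype.ext h)]
      exact hv
    have h2 : (Finset.univ.filter fun e : {e // e ∈ S} => v ∈ (sub G S).ends e).image
        (fun e => e.1) ⊆ Finset.univ.filter fun e : E => v ∈ G.ends e := by
      intro f hf
      obtain ⟨g, hg, rfl⟩ := Finset.mem_image.1 hf
      rw [Finset.mem_filter] at hg ⊢
      exact ⟨Finset.mem_univ _, hg.2⟩
    have h3 := Finset.eq_of_subset_of_card_le h2 (le_of_eq h1.symm)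
    have h4 : e ∈ Finset.univ.filter fun e : E => v ∈ G.ends e :=
      Finset.mem_filter.2 ⟨Finset.mem_univ _, he⟩
    rw [← h3] at h4
    obtain ⟨g, -, rfl⟩ := Finset.mem_image.1 h4
    exact g.2
  refine ⟨{v | ∃ e ∈ S, v ∈ G.ends e}, ?_, ?_⟩
  · -- nonempty
    rcases S.eq_empty_or_nonempty with rfl | ⟨e, he⟩
    · exfalso
      apply hS
      exact ⟨fun e => absurd e.2 (Finset.notMem_empty _),
        fun e => absurd e.2 (Finset.notMem_empty _)⟩
    · induction h : G.ends e using Sym2.ind with
      | _ a b => exact ⟨a, e, he, by rw [h]; simp⟩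
  · rintro x ⟨e0, he0, hxe⟩
    refine ⟨⟨e0, hxe⟩, ?_⟩
    obtain ⟨y1, hy1⟩ := Sym2.mem_iff_exists.mp hxe
    obtain ⟨c, hc⟩ := hmin e0 he0
    let c0 : {e // e ∈ S} → Option (Fin k) := fun e =>
      if h : e.1 = e0 then none else some (c ⟨e.1, Finset.mem_erase.2 ⟨h, e.2⟩⟩)
    have hc0 : ∀ e : {e // e ∈ S}, c0 e = none ↔ e = ⟨e0, he0⟩ := by
      intro e
      simp only [c0]
      split_ifs with h
      · simp only [true_iff]; exact Subtype.ext h
      · simp only [false_iff]
        intro h'; exact h (congrArg Subtype.val h')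
    have hpp : (sub G S).PP c0 := by
      intro e f v a hve hvf hea hfa
      simp only [c0] at hea hfa
      split_ifs at hea with h1
      split_ifs at hfa with h2
      by_contra hef
      have h3 := hc ⟨e.1, Finset.mem_erase.2 ⟨h1, e.2⟩⟩ ⟨f.1, Finset.mem_erase.2 ⟨h2, f.2⟩⟩
        (fun h => hef (Subtype.ext (congrArg (fun g => g.1) h))) ⟨v, hve, hvf⟩
      exact h3 (Option.some.inj (hea.trans hfa.symm))
    obtain ⟨n, y, hy0, hinj, hadj, hsum⟩ := fan hS
      (fun v => (Nat.add_le_add_right (hdle v) 1).trans (hdeg v)) hpp hc0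
      (x := x) (y1 := y1) (by exact hy1)
    have hxy : ∀ j, 1 ≤ j → j ≤ n → x ≠ y j := by
      intro j h1 h2 h3
      have := hinj 0 (Nat.zero_le _) j h2 (by rw [hy0, h3])
      omega
    have hterm : ∀ j, 1 ≤ j → j ≤ n →
        (sub G S).degree (y j) + (sub G S).mult x (y j) ≤ k + 1 := by
      intro j h1 h2
      exact (Nat.add_le_add (hdle _) (hmle _ _)).trans (hmul x (y j) (hxy j h1 h2))
    let Bf : Finset ℕ := (Finset.Icc 1 n).filter fun j =>
      (sub G S).degree (y j) + (sub G S).mult x (y j) = k + 1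
    have hBf : 1 < Bf.card := by
      have h1 : ∑ j ∈ Finset.Icc 1 n, ((sub G S).degree (y j) + (sub G S).mult x (y j)) ≤
          ∑ j ∈ Finset.Icc 1 n, (k + if (sub G S).degree (y j) + (sub G S).mult x (y j) = k + 1
            then 1 else 0) := by
        refine Finset.sum_le_sum fun j hj => ?_
        rw [Finset.mem_Icc] at hj
        have := hterm j hj.1 hj.2
        split_ifs with h
        · omega
        · omega
      rw [Finset.sum_add_distrib (f := fun _ => k), Finset.sum_const, Nat.card_Icc,
        ← Finset.card_filter] at h1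
      have h2 : n * k + 2 ≤ n * k + Bf.card := by
        refine hsum.trans (h1.trans (le_of_eq ?_))
        simp [Bf]
      omega
    obtain ⟨i, hi, j, hj, hij⟩ := Finset.one_lt_card.1 hBf
    have key : ∀ j ∈ Bf, x ≠ y j ∧ G.degree (y j) + G.mult x (y j) = k + 1 ∧
        ∀ e, y j ∈ G.ends e → ∀ z ∈ G.ends e, z ∈ {v | ∃ e ∈ S, v ∈ G.ends e} := by
      intro j hj
      rw [Finset.mem_filter, Finset.mem_Icc] at hj
      have h1 := hxy j hj.1.1 hj.1.2
      have h2 := hdle (y j)
      have h3 := hmle x (y j)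
      have h4 := hmul x (y j) h1
      refine ⟨h1, by omega, ?_⟩
      intro e he z hz
      exact ⟨e, hdfull (y j) (by omega) e he, hz⟩
    refine ⟨y i, y j, ?_, key i hi, key j hj⟩
    intro h
    rw [Finset.mem_filter, Finset.mem_Icc] at hi hj
    exact hij (hinj i hi.1.2 j hj.1.2 h)

end Pool.Agent.N690.AL
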